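import Pool.Agent.RSCubic.Cyc

set_option autoImplicit false

namespace Pool.Agent.Helper76.RSB

open Finset Pool.Agent.RSCubic

section phi

variable (n : ℕ) [NeZero n] (h : ℕ)

/-- The point of `ZMod n → ZMod 2` with `x (i + h) = x i + 1` prescribed on `[0, h)`. -/
def phi (a : ℕ → ZMod 2) : ZMod n → ZMod 2 :=
  fun i => a (i.val % h) + ((i.val / h : ℕ) : ZMod 2)

/-- The induced rotation. -/
def rot (a : ℕ → ZMod 2) : ℕ → ZMod 2 :=
  fun j => if j + 1 = h then a 0 + 1 else a (j + 1)

lemma rsb_div_succ (hh : 0 < h) (v : ℕ) (hv : v % h + 1 = h) :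
    (v + 1) % h = 0 ∧ (v + 1) / h = v / h + 1 := by
  have h1 : v + 1 = h * (v / h + 1) := by
    have := Nat.div_add_mod v h
    rw [mul_add, mul_one]
    omega
  refine ⟨?_, ?_⟩
  · rw [h1, Nat.mul_mod_right]
  · conv_lhs => rw [h1]
    rw [Nat.mul_div_cancel_left _ hh]

lemma rsb_div_succ' (hh : 0 < h) (v : ℕ) (hv : v % h + 1 ≠ h) :
    (v + 1) % h = v % h + 1 ∧ (v + 1) / h = v / h := by
  have hlt := Nat.mod_lt v hh
  have h1 : v + 1 = h * (v / h) + (v % h + 1) := by
    have := Nat.div_add_mod v h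
    omega
  have h2 : v % h + 1 < h := by omega
  refine ⟨?_, ?_⟩
  · conv_lhs => rw [h1]
    rw [Nat.mul_add_mod, Nat.mod_eq_of_lt h2]
  · conv_lhs => rw [h1]
    rw [Nat.mul_add_div hh, Nat.div_eq_of_lt h2, add_zero]

lemma phi_sh (hh : 0 < h) (q : ℕ) (hn : n = 2 * (h * q)) (a : ℕ → ZMod 2) :
    sh n (phi n h a) = phi n h (rot h a) := by
  funext i
  rw [sh_apply]
  have hpos : 0 < n := Nat.pos_of_ne_zero (NeZero.ne n)
  have hi := ZMod.val_lt i
  have hval : (i + 1).val = if i.val + 1 = n then 0 else i.val + 1 := by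
    rw [ZMod.val_add]
    by_cases h1 : n = 1
    · exfalso; omega
    · have : (1 : ZMod n).val = 1 := by
        have : Fact (1 < n) := ⟨by omega⟩
        exact ZMod.val_one n
      rw [this]
      split_ifs with h2
      · rw [h2, Nat.mod_self]
      · exact Nat.mod_eq_of_lt (by omega)
  unfold phi rot
  rw [hval]
  by_cases h1 : i.val + 1 = n
  · rw [if_pos h1]
    have hm : i.val % h + 1 = h := by
      have h2 : i.val = h * (2 * q) - 1 := by
        have : n = h * (2 * q) := by rw [hn]; ring
        omega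
      have hq : 0 < 2 * q := by
        rcases Nat.eq_zero_or_pos q with h0 | h0
        · rw [h0] at hn; omega
        · omega
      have h3 : i.val = h * (2 * q - 1) + (h - 1) := by
        rw [h2, Nat.mul_sub, mul_one]
        have : h ≤ h * (2 * q) := Nat.le_mul_of_pos_right h hq
        omega
      rw [h3, Nat.mul_add_mod, Nat.mod_eq_of_lt (by omega)]
      omega
    rw [if_pos hm]
    obtain ⟨_, h5⟩ := rsb_div_succ h hh i.val hm
    have h6 : i.val / h + 1 = 2 * q := by
      rw [← h5, h1, hn, show 2 * (h * q) = h * (2 * q) by ring, Nat.mul_div_cancel_left _ hh]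
    have h7 : ((i.val / h : ℕ) : ZMod 2) + 1 = 0 := by
      have := congrArg (fun t : ℕ => (t : ZMod 2)) h6
      simp only [Nat.cast_add, Nat.cast_one, Nat.cast_mul, Nat.cast_ofNat] at this
      rw [this, two0, zero_mul]
    simp only [Nat.zero_mod, Nat.zero_div, Nat.cast_zero, add_zero]
    linear_combination -h7
  · rw [if_neg h1]
    by_cases hm : i.val % h + 1 = h
    · obtain ⟨h4, h5⟩ := rsb_div_succ h hh i.val hm
      rw [if_pos hm, h4, h5]
      push_cast
      ring
    · obtain ⟨h4, h5⟩ := rsb_div_succ' h hh i.val hm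
      rw [if_neg hm, h4, h5]

lemma phi_shift (hh : 0 < h) (q : ℕ) (hn : n = 2 * (h * q)) (a : ℕ → ZMod 2) (i : ZMod n) :
    phi n h a (i + (h : ZMod n)) = phi n h a i + 1 := by
  have hpos : 0 < n := Nat.pos_of_ne_zero (NeZero.ne n)
  have hi := ZMod.val_lt i
  have hq : 0 < q := by
    rcases Nat.eq_zero_or_pos q with h0 | h0
    · rw [h0] at hn; omega
    · exact h0
  have hn' : n = h * (2 * q) := by rw [hn]; ring
  have hle : h + h ≤ n := by
    have : h * 2 ≤ h * (2 * q) := Nat.mul_le_mul_left h (by omega)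
    omega
  have hval : (i + (h : ZMod n)).val = if i.val + h < n then i.val + h else i.val + h - n := by
    rw [ZMod.val_add, ZMod.val_natCast, Nat.mod_eq_of_lt (show h < n by omega)]
    split_ifs with h2
    · exact Nat.mod_eq_of_lt h2
    · rw [Nat.mod_eq_sub_mod (by omega)]
      exact Nat.mod_eq_of_lt (by omega)
  unfold phi
  rw [hval]
  split_ifs with h2
  · rw [Nat.add_mod_right, Nat.add_div_right _ hh]
    push_cast
    ring
  · have h3 : i.val + h = h * (2 * q) + (i.val + h - n) := by omega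
    have h4 : (i.val + h) % h = (i.val + h - n) % h := by
      conv_lhs => rw [h3]
      rw [Nat.mul_add_mod]
    have h5 : (i.val + h) / h = 2 * q + (i.val + h - n) / h := by
      conv_lhs => rw [h3]
      rw [Nat.mul_add_div hh]
    rw [Nat.add_mod_right] at h4
    rw [Nat.add_div_right _ hh] at h5
    rw [← h4]
    have h6 : (((i.val + h - n) / h : ℕ) : ZMod 2) = ((i.val / h : ℕ) : ZMod 2) + 1 := by
      have := congrArg (fun t : ℕ => (t : ZMod 2)) h5
      simp only [Nat.cast_add, Nat.cast_mul, Nat.cast_ofNat,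
        Nat.cast_one] at this
      rw [two0, zero_mul, zero_add] at this
      exact this.symm
    rw [h6]
    ring

lemma phi_surj (hh : 0 < h) (x : ZMod n → ZMod 2)
    (hx : ∀ i, x (i + (h : ZMod n)) = x i + 1) :
    x = phi n h (fun j => if j < h then x (j : ZMod n) else 0) := by
  funext i
  show x i = (if i.val % h < h then x ((i.val % h : ℕ) : ZMod n) else 0) +
    ((i.val / h : ℕ) : ZMod 2)
  rw [if_pos (Nat.mod_lt _ hh)]
  have hk : ∀ k j : ℕ, x (((j + h * k : ℕ) : ZMod n)) = x (j : ZMod n) + (k : ZMod 2) := by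
    intro k j
    induction k with
    | zero => simp
    | succ k ih =>
      have : (((j + h * (k + 1) : ℕ)) : ZMod n) = ((j + h * k : ℕ) : ZMod n) + (h : ZMod n) := by
        push_cast; ring
      rw [this, hx, ih]
      push_cast
      ring
  have h1 := hk (i.val / h) (i.val % h)
  rw [Nat.mod_add_div, ZMod.natCast_zmod_val] at h1
  exact h1

end phi

end Pool.Agent.Helper76.RSB
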