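import Pool.Agent.Helper76.RSB.Core
import Pool.Agent.RSCubic.Main

set_option autoImplicit false

namespace Pool.Agent.Helper76.RSB

open Finset Pool.Agent.RSCubic

section cnt

variable (n : ℕ) [NeZero n] (h : ℕ)

omit [NeZero n] in
lemma phi_congr (hh : 0 < h) (a b : ℕ → ZMod 2) (hab : ∀ j < h, a j = b j) :
    phi n h a = phi n h b := by
  funext i
  unfold phi
  rw [hab _ (Nat.mod_lt _ hh)]

/-- The points with `x (i + h) = x i + 1`. -/
def Fset : Finset (ZMod n → ZMod 2) := univ.filter fun x => ∀ i, x (i + (h : ZMod n)) = x i + 1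

lemma Fset_sum {ι : Type} [Fintype ι] (hh : 0 < h) (q : ℕ) (hn : n = 2 * (h * q))
    (f : (ZMod n → ZMod 2) → ZMod 2) (enc : ι → ℕ → ZMod 2) (dec : (ZMod n → ZMod 2) → ι)
    (h1 : ∀ t, dec (phi n h (enc t)) = t)
    (h2 : ∀ x : ZMod n → ZMod 2, ∀ j < h, enc (dec x) j = x (j : ZMod n)) :
    ∑ x ∈ Fset n h, chi (f x) = ∑ t, chi (f (phi n h (enc t))) := by
  have h3 : ∀ x ∈ Fset n h, phi n h (enc (dec x)) = x := by
    intro x hx
    have hx' := (Finset.mem_filter.mp hx).2
    conv_rhs => rw [phi_surj n h hh x hx']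
    apply phi_congr n h hh
    intro j hj
    rw [h2 x j hj]
    simp only [if_pos hj]
  refine Finset.sum_bij' (fun x _ => dec x) (fun t _ => phi n h (enc t)) ?_ ?_ ?_ ?_ ?_
  · intro x _; exact Finset.mem_univ _
  · intro t _
    refine Finset.mem_filter.mpr ⟨Finset.mem_univ _, ?_⟩
    intro i
    exact phi_shift n h hh q hn _ i
  · intro x hx; exact h3 x hx
  · intro t _; exact h1 t
  · intro x hx; rw [h3 x hx]

lemma phi_val (hh : 0 < h) (q : ℕ) (hn : n = 2 * (h * q)) (a : ℕ → ZMod 2) (j : ℕ) (hj : j < h) :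
    phi n h a (j : ZMod n) = a j := by
  have hpos : 0 < n := Nat.pos_of_ne_zero (NeZero.ne n)
  have hq : 0 < q := by
    rcases Nat.eq_zero_or_pos q with h0 | h0
    · rw [h0] at hn; omega
    · exact h0
  have hle : h ≤ h * q := Nat.le_mul_of_pos_right h hq
  unfold phi
  rw [ZMod.val_natCast, Nat.mod_eq_of_lt (show j < n by omega), Nat.mod_eq_of_lt hj,
    Nat.div_eq_of_lt hj]
  simp

/-- `h = 1`. -/
lemma sum1 (q : ℕ) (hn : n = 2 * (1 * q)) (f : (ZMod n → ZMod 2) → ZMod 2)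
    (hf : ∀ x, f (sh n x) = f x) :
    ∑ x ∈ Fset n 1, chi (f x) = 2 ∨ ∑ x ∈ Fset n 1, chi (f x) = -2 := by
  rw [Fset_sum n 1 one_pos q hn f (fun (t : ZMod 2) _ => t) (fun x => x ((0 : ℕ) : ZMod n))
    (fun t => phi_val n 1 one_pos q hn _ 0 one_pos)
    (fun x j hj => by
      have : j = 0 := by omega
      rw [this])]
  have e1 : f (phi n 1 (fun _ => (1 : ZMod 2))) = f (phi n 1 (fun _ => (0 : ZMod 2))) := by
    rw [← hf (phi n 1 (fun _ => (0 : ZMod 2))), phi_sh n 1 one_pos q hn]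
    congr 1
    apply phi_congr n 1 one_pos
    intro j hj
    have : j = 0 := by omega
    subst this
    simp [rot]
  have e2 : ∑ t : ZMod 2, chi (f (phi n 1 (fun _ => t)))
      = chi (f (phi n 1 (fun _ => (0 : ZMod 2)))) + chi (f (phi n 1 (fun _ => (1 : ZMod 2)))) :=
    Fin.sum_univ_two (fun t : Fin 2 => chi (f (phi n 1 (fun _ => (show ZMod 2 from t)))))
  rw [e2, e1]
  rcases chi_pos_or (f (phi n 1 (fun _ => (0 : ZMod 2)))) with h0 | h0 <;> rw [h0]
  · left; norm_num
  · right; norm_num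

/-- encoding for `h = 2`. -/
def enc2 (t : ZMod 2 × ZMod 2) : ℕ → ZMod 2 := fun j => if j = 0 then t.1 else t.2

/-- encoding for `h = 3`. -/
def enc3 (t : ZMod 2 × ZMod 2 × ZMod 2) : ℕ → ZMod 2 :=
  fun j => if j = 0 then t.1 else if j = 1 then t.2.1 else t.2.2

lemma rot2 (q : ℕ) (hn : n = 2 * (2 * q)) (f : (ZMod n → ZMod 2) → ZMod 2)
    (hf : ∀ x, f (sh n x) = f x) (a b : ZMod 2) :
    f (phi n 2 (enc2 (b, a + 1))) = f (phi n 2 (enc2 (a, b))) := by
  rw [← hf (phi n 2 (enc2 (a, b))), phi_sh n 2 two_pos q hn]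
  congr 1
  apply phi_congr n 2 two_pos
  intro j hj
  have : j = 0 ∨ j = 1 := by omega
  rcases this with h0 | h0 <;> subst h0 <;> simp [rot, enc2]

lemma sum2 (q : ℕ) (hn : n = 2 * (2 * q)) (f : (ZMod n → ZMod 2) → ZMod 2)
    (hf : ∀ x, f (sh n x) = f x) :
    ∑ x ∈ Fset n 2, chi (f x) = 4 ∨ ∑ x ∈ Fset n 2, chi (f x) = -4 := by
  rw [Fset_sum n 2 two_pos q hn f enc2
    (fun x => (x ((0 : ℕ) : ZMod n), x ((1 : ℕ) : ZMod n)))
    (fun t => by
      rw [phi_val n 2 two_pos q hn _ 0 (by norm_num), phi_val n 2 two_pos q hn _ 1 (by norm_num)]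
      simp [enc2])
    (fun x j hj => by
      have : j = 0 ∨ j = 1 := by omega
      rcases this with h0 | h0 <;> subst h0 <;> simp [enc2])]
  have r := rot2 n q hn f hf
  have r1 := r 0 0
  have r2 := r 0 1
  have r3 := r 1 1
  rw [zero_add] at r1 r2
  rw [show (1 : ZMod 2) + 1 = 0 from rfl] at r3
  have e2 : ∀ g : ZMod 2 → ℤ, ∑ t : ZMod 2, g t = g 0 + g 1 := fun g => Fin.sum_univ_two g
  rw [Fintype.sum_prod_type]
  simp only [e2]
  rw [← r3, ← r2, ← r1]
  rcases chi_pos_or (f (phi n 2 (enc2 (1, 0)))) with h0 | h0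
  · left
    have : f (phi n 2 (enc2 (0, 1))) = f (phi n 2 (enc2 (0, 0))) := r1
    simp only [r3, r2, r1] at h0 ⊢
    rw [h0]; norm_num
  · right
    simp only [r3, r2, r1] at h0 ⊢
    rw [h0]; norm_num

lemma rot3 (q : ℕ) (hn : n = 2 * (3 * q)) (f : (ZMod n → ZMod 2) → ZMod 2)
    (hf : ∀ x, f (sh n x) = f x) (a b c : ZMod 2) :
    f (phi n 3 (enc3 (b, c, a + 1))) = f (phi n 3 (enc3 (a, b, c))) := by
  rw [← hf (phi n 3 (enc3 (a, b, c))), phi_sh n 3 (by norm_num) q hn]
  congr 1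
  apply phi_congr n 3 (by norm_num)
  intro j hj
  have : j = 0 ∨ j = 1 ∨ j = 2 := by omega
  rcases this with h0 | h0 | h0 <;> subst h0 <;> simp [rot, enc3]

lemma sum3 (q : ℕ) (hn : n = 2 * (3 * q)) (f : (ZMod n → ZMod 2) → ZMod 2)
    (hf : ∀ x, f (sh n x) = f x) :
    ∃ k : ℕ, ∑ x ∈ Fset n 3, chi (f x) = 2 ^ k ∨ ∑ x ∈ Fset n 3, chi (f x) = -2 ^ k := by
  rw [Fset_sum n 3 (by norm_num) q hn f enc3
    (fun x => (x ((0 : ℕ) : ZMod n), x ((1 : ℕ) : ZMod n), x ((2 : ℕ) : ZMod n)))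
    (fun t => by
      rw [phi_val n 3 (by norm_num) q hn _ 0 (by norm_num),
        phi_val n 3 (by norm_num) q hn _ 1 (by norm_num),
        phi_val n 3 (by norm_num) q hn _ 2 (by norm_num)]
      simp [enc3])
    (fun x j hj => by
      have : j = 0 ∨ j = 1 ∨ j = 2 := by omega
      rcases this with h0 | h0 | h0 <;> subst h0 <;> simp [enc3])]
  have r := rot3 n q hn f hf
  have r1 := r 0 0 0
  have r2 := r 0 0 1
  have r3 := r 0 1 1
  have r4 := r 1 1 1
  have r5 := r 1 1 0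
  have r6 := r 0 1 0
  rw [zero_add] at r1 r2 r3 r6
  rw [show (1 : ZMod 2) + 1 = 0 from rfl] at r4 r5
  have e2 : ∀ g : ZMod 2 → ℤ, ∑ t : ZMod 2, g t = g 0 + g 1 := fun g => Fin.sum_univ_two g
  rw [Fintype.sum_prod_type]
  simp only [e2]
  rw [Fintype.sum_prod_type, Fintype.sum_prod_type]
  simp only [e2]
  rw [r6, r5, r4, r3, r2, r1]
  rcases chi_pos_or (f (phi n 3 (enc3 (0, 0, 0)))) with h0 | h0 <;>
    rcases chi_pos_or (f (phi n 3 (enc3 (0, 1, 0)))) with h1 | h1 <;> rw [h0, h1]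
  · exact ⟨3, Or.inl (by norm_num)⟩
  · exact ⟨2, Or.inl (by norm_num)⟩
  · exact ⟨2, Or.inr (by norm_num)⟩
  · exact ⟨3, Or.inr (by norm_num)⟩

end cnt

section fix

variable (n : ℕ) [NeZero n]

lemma sh_pow_n (x : ZMod n → ZMod 2) : (sh n ^ n) x = x := by
  funext i
  rw [sh_pow]
  simp

lemma mod_count (h q p a : ℕ) (hp : p.Prime) (hp2 : p ≠ 2) (hq : q = p ^ a)
    (hn : n = 2 * (h * q)) (f : (ZMod n → ZMod 2) → ZMod 2) (hf : ∀ x, f (sh n x) = f x) :
    ∃ z : ℤ, ∑ x ∈ univ.filter (fun x : ZMod n → ZMod 2 => (sh n ^ (h * q)) x = x + 1), chi (f x)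
      = ∑ x ∈ Fset n h, chi (f x) + p * z := by
  classical
  have : Fact p.Prime := ⟨hp⟩
  have hfp : ∀ k : ℕ, ∀ x, f ((sh n ^ k) x) = f x := by
    intro k
    induction k with
    | zero => intro x; simp
    | succ k ih => intro x; rw [pow_succ]; exact (ih _).trans (hf x)
  have hpow1 : ∀ k : ℕ, (sh n ^ k) (1 : ZMod n → ZMod 2) = 1 := by
    intro k; funext i; rw [sh_pow]; rfl
  have hodd : Odd q := by rw [hq]; exact (hp.odd_of_ne_two hp2).pow
  obtain ⟨t, ht⟩ := hodd
  -- antiperiodic and fixed by the 2h-th power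
  have key : ∀ x : ZMod n → ZMod 2, ((sh n ^ (h * q)) x = x + 1 ∧ (sh n ^ (2 * h)) x = x) ↔
      (sh n ^ h) x = x + 1 := by
    intro x
    have hfix : (sh n ^ (2 * h)) x = x → ∀ j : ℕ, (sh n ^ (2 * h * j)) x = x := by
      intro hx j
      induction j with
      | zero => simp
      | succ j ih =>
        rw [mul_add, mul_one, pow_add]
        show (sh n ^ (2 * h * j)) ((sh n ^ (2 * h)) x) = x
        rw [hx, ih]
    have hsplit : (sh n ^ (h * q)) x = (sh n ^ h) ((sh n ^ (2 * h * t)) x) := by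
      rw [ht, show h * (2 * t + 1) = h + 2 * h * t by ring, pow_add]
      rfl
    constructor
    · rintro ⟨h1, h2⟩
      rw [hsplit, hfix h2 t] at h1
      exact h1
    · intro h1
      have h2 : (sh n ^ (2 * h)) x = x := by
        rw [show 2 * h = h + h by ring, pow_add]
        show (sh n ^ h) ((sh n ^ h) x) = x
        rw [h1, map_add, h1, hpow1]
        funext i
        show x i + 1 + 1 = x i
        linear_combination two0
      exact ⟨by rw [hsplit, hfix h2 t, h1], h2⟩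
  have hF : ∀ x : ZMod n → ZMod 2, (sh n ^ h) x = x + 1 ↔ x ∈ Fset n h := by
    intro x
    unfold Fset
    rw [Finset.mem_filter, funext_iff]
    constructor
    · intro h1
      refine ⟨Finset.mem_univ _, fun i => ?_⟩
      have := h1 i
      rw [sh_pow] at this
      exact this
    · rintro ⟨_, h1⟩ i
      rw [sh_pow, h1]
      rfl
  -- counting
  have hc : ∀ s : ZMod 2, ∃ z : ℤ,
      ((univ.filter (fun x : ZMod n → ZMod 2 => (sh n ^ (h * q)) x = x + 1 ∧ f x = s)).card : ℤ)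
      = ((Fset n h).filter (fun x => f x = s)).card + p * z := by
    intro s
    let α := {x : ZMod n → ZMod 2 // (sh n ^ (h * q)) x = x + 1 ∧ f x = s}
    let g : Function.End α := fun x => ⟨(sh n ^ (2 * h)) x.1, by
      constructor
      · have : (sh n ^ (h * q)) ((sh n ^ (2 * h)) x.1) = (sh n ^ (2 * h)) ((sh n ^ (h * q)) x.1) := by
          have e : sh n ^ (h * q) * sh n ^ (2 * h) = sh n ^ (2 * h) * sh n ^ (h * q) := by
            rw [← pow_add, ← pow_add, add_comm]
          exact congrArg (fun g : Module.End (ZMod 2) (ZMod n → ZMod 2) => g x.1) e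
        rw [this, x.2.1, map_add, hpow1]
      · rw [hfp]; exact x.2.2⟩
    have hg : ∀ (k : ℕ) (x : α), ((g ^ k) x).1 = (sh n ^ (2 * h * k)) x.1 := by
      intro k
      induction k with
      | zero => intro x; simp; rfl
      | succ k ih =>
        intro x
        rw [pow_succ]
        show ((g ^ k) (g x)).1 = _
        rw [ih]
        show (sh n ^ (2 * h * k)) ((sh n ^ (2 * h)) x.1) = _
        rw [mul_add, mul_one, pow_add]
        rfl
    have hg1 : g ^ p ^ a = 1 := by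
      funext x
      apply Subtype.ext
      rw [hg, ← hq, show 2 * h * q = n by rw [hn]; ring, sh_pow_n]
      rfl
    have hmod := Equiv.Perm.card_fixedPoints_modEq hg1
    have hfixcard : Fintype.card (Function.fixedPoints g)
        = ((Fset n h).filter (fun x => f x = s)).card := by
      rw [← Fintype.card_coe]
      refine Fintype.card_congr ⟨fun x => ⟨x.1.1, ?_⟩, fun x => ⟨⟨x.1, ?_⟩, ?_⟩, ?_, ?_⟩
      · have h1 : (sh n ^ (2 * h)) x.1.1 = x.1.1 := congrArg Subtype.val x.2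
        exact Finset.mem_filter.mpr ⟨(hF _).mp ((key _).mp ⟨x.1.2.1, h1⟩), x.1.2.2⟩
      · have h1 := Finset.mem_filter.mp x.2
        exact ⟨((key _).mpr ((hF _).mpr h1.1)).1, h1.2⟩
      · have h1 := Finset.mem_filter.mp x.2
        exact Subtype.ext ((key _).mpr ((hF _).mpr h1.1)).2
      · intro x; rfl
      · intro x; rfl
    have hcard : Fintype.card α
        = (univ.filter (fun x : ZMod n → ZMod 2 => (sh n ^ (h * q)) x = x + 1 ∧ f x = s)).card :=
      Fintype.card_subtype _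
    rw [hfixcard, hcard] at hmod
    have h2 := (Nat.modEq_iff_dvd.mp hmod.symm)
    obtain ⟨z, hz⟩ := h2
    exact ⟨z, by linarith⟩
  have hsum : ∀ (A : Finset (ZMod n → ZMod 2)), ∑ x ∈ A, chi (f x)
      = ((A.filter (fun x => f x = 0)).card : ℤ) - (A.filter (fun x => f x = 1)).card := by
    intro A
    rw [← Finset.sum_filter_add_sum_filter_not A (fun x => f x = 0)]
    have e1 : ∑ x ∈ A.filter (fun x => f x = 0), chi (f x) = ((A.filter (fun x => f x = 0)).card : ℤ) := by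
      rw [Finset.sum_congr rfl (fun x hx => by rw [(Finset.mem_filter.mp hx).2, chi_zero])]
      simp
    have e2 : A.filter (fun x => ¬ f x = 0) = A.filter (fun x => f x = 1) := by
      apply Finset.filter_congr
      intro x _
      constructor
      · exact z2_ne _
      · intro h1; rw [h1]; decide
    have e3 : ∑ x ∈ A.filter (fun x => f x = 1), chi (f x) = -((A.filter (fun x => f x = 1)).card : ℤ) := by
      rw [Finset.sum_congr rfl (fun x hx => by rw [(Finset.mem_filter.mp hx).2, chi_one])]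
      simp
    rw [e1, e2, e3]
    ring
  obtain ⟨z0, h0⟩ := hc 0
  obtain ⟨z1, h1⟩ := hc 1
  refine ⟨z0 - z1, ?_⟩
  rw [hsum, hsum, Finset.filter_filter, Finset.filter_filter, h0, h1]
  ring

end fix

end Pool.Agent.Helper76.RSB
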