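import Pool.Agent.Helper76.RSB.Main

set_option autoImplicit false

namespace Pool.Agent.Helper76.RSB

open Finset Pool.Agent.RSCubic

section fin

variable (n : ℕ) [NeZero n]

lemma rsb_half_ne (m : ℕ) (hm : n = m + m) : (m : ZMod n) ≠ 0 := by
  have hn : 0 < n := Nat.pos_of_ne_zero (NeZero.ne n)
  intro h1
  have h2 := congrArg ZMod.val h1
  rw [ZMod.val_natCast, ZMod.val_zero, Nat.mod_eq_of_lt (by omega)] at h2
  omega

lemma card_even_of_inv (m : ℕ) (hm : n = m + m) (S : Finset (ZMod n))
    (hS : ∀ i ∈ S, i + (m : ZMod n) ∈ S) : Even S.card := by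
  have h0 : ∑ _i ∈ S, (1 : ZMod 2) = 0 := by
    refine Finset.sum_involution (fun i _ => i + (m : ZMod n)) ?_ ?_ ?_ ?_
    · intro i _; decide
    · intro i _ _ h1
      exact rsb_half_ne n m hm (left_eq_add.mp h1.symm)
    · intro i hi; exact hS i hi
    · intro i _
      show i + (m : ZMod n) + (m : ZMod n) = i
      rw [add_assoc, mm_zero n m hm, add_zero]
  rw [Finset.sum_const, nsmul_eq_mul, mul_one] at h0
  exact (ZMod.natCast_eq_zero_iff_even).mp h0

lemma const_of_anf (m : ℕ) (hm : n = m + m) (f : (ZMod n → ZMod 2) → ZMod 2)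
    (c : Finset (ZMod n) → ZMod 2)
    (hanf : ∀ x, f x = ∑ S : Finset (ZMod n), c S * ∏ i ∈ S, x i)
    (hf : ∀ x, f (sh n x) = f x)
    (hc : ∀ S : Finset (ZMod n), S.Nonempty → (∀ i ∈ S, i + (m : ZMod n) ∈ S) → c S = 0)
    (x : ZMod n → ZMod 2) (hx : (sh n ^ m) x = x) : f x = f 0 := by
  classical
  have hfp : ∀ k : ℕ, ∀ x, f ((sh n ^ k) x) = f x := by
    intro k
    induction k with
    | zero => intro x; simp
    | succ k ih => intro x; rw [pow_succ]; exact (ih _).trans (hf x)
  have hx' : ∀ i, x (i + (m : ZMod n)) = x i := by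
    intro i
    have := congrFun hx i
    rw [sh_pow] at this
    exact this
  let e : ZMod n ≃ ZMod n := Equiv.addRight (m : ZMod n)
  have he : ∀ i, e i = i + (m : ZMod n) := fun i => rfl
  have hinv := anf_inv f c hanf e (by
    intro y
    have h1 : y ∘ e = (sh n ^ m) y := by
      funext i
      rw [sh_pow]
      rfl
    rw [h1, hfp])
  have key : ∀ y : ZMod n → ZMod 2, (∀ i, y (i + (m : ZMod n)) = y i) → f y = c ∅ := by
    intro y hy
    rw [hanf y, ← Finset.add_sum_erase univ _ (Finset.mem_univ (∅ : Finset (ZMod n)))]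
    have h0 : ∑ S ∈ (univ : Finset (Finset (ZMod n))).erase ∅, c S * ∏ i ∈ S, y i = 0 := by
      refine Finset.sum_involution (fun S _ => S.map e.toEmbedding) ?_ ?_ ?_ ?_
      · intro S _
        have h1 : ∏ i ∈ S.map e.toEmbedding, y i = ∏ i ∈ S, y i := by
          rw [Finset.prod_map]
          exact Finset.prod_congr rfl fun i _ => hy i
        rw [hinv, h1]
        exact z2_self _
      · intro S hS hne h1
        apply hne
        have hSne : S.Nonempty := Finset.nonempty_iff_ne_empty.mpr (Finset.mem_erase.mp hS).1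
        have h2 : ∀ i ∈ S, i + (m : ZMod n) ∈ S := by
          intro i hi
          have h3 : e i ∈ S.map e.toEmbedding := Finset.mem_map_of_mem e.toEmbedding hi
          rw [h1] at h3
          exact h3
        rw [hc S hSne h2, zero_mul]
      · intro S hS
        refine Finset.mem_erase.mpr ⟨?_, Finset.mem_univ _⟩
        intro h1
        exact (Finset.mem_erase.mp hS).1 (Finset.map_eq_empty.mp h1)
      · intro S _
        rw [Finset.map_map]
        have h1 : e.toEmbedding.trans e.toEmbedding = Function.Embedding.refl (ZMod n) := by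
          refine Function.Embedding.ext fun i => ?_
          show i + (m : ZMod n) + (m : ZMod n) = i
          rw [add_assoc, mm_zero n m hm, add_zero]
        rw [h1, Finset.map_refl]
    rw [h0]
    simp
  rw [key x hx', key 0 (fun i => rfl)]

/-- The theorem on `ZMod n`. -/
theorem zmod_result (p a h : ℕ) (hp : p.Prime) (hp2 : p ≠ 2) (hh : h = 1 ∨ h = 2 ∨ h = 3)
    (hn : n = 2 * (h * p ^ a))
    (f : (ZMod n → ZMod 2) → ZMod 2) (c : Finset (ZMod n) → ZMod 2)
    (hanf : ∀ x, f x = ∑ S : Finset (ZMod n), c S * ∏ i ∈ S, x i)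
    (hf : ∀ x, f (sh n x) = f x)
    (hb : ∀ b : ZMod n → ZMod 2, (∑ x : ZMod n → ZMod 2, chi (f x + ∑ i, b i * x i)) ^ 2
      = (2 : ℤ) ^ n) :
    ∃ S : Finset (ZMod n), S.Nonempty ∧ Even S.card ∧ c S ≠ 0 ∧
      ∀ i ∈ S, i + ((h * p ^ a : ℕ) : ZMod n) ∈ S := by
  have hm : n = h * p ^ a + h * p ^ a := by omega
  by_contra hcon
  push Not at hcon
  have hc : ∀ S : Finset (ZMod n), S.Nonempty →
      (∀ i ∈ S, i + ((h * p ^ a : ℕ) : ZMod n) ∈ S) → c S = 0 := by
    intro S hS h1
    by_contra h2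
    obtain ⟨i, hi, h3⟩ := hcon S hS (card_even_of_inv n _ hm S h1) h2
    exact h3 (h1 i hi)
  exact core_false n h (p ^ a) p a hp hp2 rfl hh hn f hf
    (bal_of_bent f (by intro b; rw [hb b, ZMod.card]))
    (const_of_anf n _ hm f c hanf hf hc)

end fin

end Pool.Agent.Helper76.RSB
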