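import Pool.Agent.Helper76.RSB.Count

set_option autoImplicit false

namespace Pool.Agent.Helper76.RSB

open Finset Pool.Agent.RSCubic

section bal

variable (n : ℕ) [NeZero n]

lemma core_false (h q p a : ℕ) (hp : p.Prime) (hp2 : p ≠ 2) (hq : q = p ^ a)
    (hh : h = 1 ∨ h = 2 ∨ h = 3) (hn : n = 2 * (h * q))
    (f : (ZMod n → ZMod 2) → ZMod 2) (hf : ∀ x, f (sh n x) = f x)
    (hbal : ∀ e, e ≠ 0 → ∑ x, chi (f x + f (x + e)) = 0)
    (hconst : ∀ x, (sh n ^ (h * q)) x = x → f x = f 0) : False := by
  classical
  have hh0 : 0 < h := by omega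
  have hV := v_self (V := ZMod n → ZMod 2)
  have hm : n = h * q + h * q := by omega
  set τ := sh n ^ (h * q) with hτ
  have hττ : ∀ x, τ (τ x) = x := by
    intro x
    have : τ * τ = sh n ^ n := by
      rw [hτ, ← pow_add, ← hm]
    have h2 := congrArg (fun g : Module.End (ZMod 2) (ZMod n → ZMod 2) => g x) this
    exact h2.trans (sh_pow_n n x)
  let E : AddSubgroup (ZMod n → ZMod 2) :=
    { carrier := {x | τ x = x}
      add_mem' := by
        intro x y hx hy
        simp only [Set.mem_ofPred_eq] at *
        rw [map_add, hx, hy]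
      zero_mem' := by simp
      neg_mem' := by
        intro x hx
        simp only [Set.mem_ofPred_eq] at *
        rw [map_neg, hx] }
  have hEmem : ∀ x, x ∈ E ↔ τ x = x := fun x => Iff.rfl
  have hcard : Fintype.card E * Fintype.card E = Fintype.card (ZMod n → ZMod 2) := by
    let N : (ZMod n → ZMod 2) →+ (ZMod n → ZMod 2) :=
      (τ + 1 : Module.End (ZMod 2) (ZMod n → ZMod 2)).toAddMonoidHom
    have hNa : ∀ x, N x = τ x + x := fun x => rfl
    have hkerN : N.ker = E := by
      ext x
      rw [AddMonoidHom.mem_ker, hNa, hEmem]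
      constructor
      · intro h'
        have h1 : τ x = τ x + x + x := by rw [add_assoc, hV, add_zero]
        rw [h1, h', zero_add]
      · intro h'
        rw [h', hV]
    have hranN : N.range = E := by
      ext x
      rw [AddMonoidHom.mem_range]
      constructor
      · rintro ⟨y, rfl⟩
        rw [hNa, hEmem, map_add, hττ, add_comm]
      · intro h'
        obtain ⟨z, hz⟩ := sh_E n (h * q) hm x h'
        exact ⟨z, by rw [hNa, hz, add_comm]⟩
    have h1 := AddSubgroup.card_mul_index E
    have h2 : E.index = Nat.card E := by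
      have h3 := AddSubgroup.index_ker N
      rw [hkerN, hranN] at h3
      exact h3
    rw [h2] at h1
    simpa [Nat.card_eq_fintype_card] using h1
  -- the antiperiodic point
  have hqodd : Odd q := by rw [hq]; exact (hp.odd_of_ne_two hp2).pow
  set u : ZMod n → ZMod 2 := phi n h (fun _ => 0) with hu
  have hτu : τ u = u + 1 := by
    have hk : ∀ (k : ℕ) (i : ZMod n), u (i + ((h * k : ℕ) : ZMod n)) = u i + (k : ZMod 2) := by
      intro k
      induction k with
      | zero => intro i; simp
      | succ k ih =>
        intro i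
        have : i + ((h * (k + 1) : ℕ) : ZMod n) = (i + ((h * k : ℕ) : ZMod n)) + (h : ZMod n) := by
          push_cast; ring
        rw [this, hu, phi_shift n h hh0 q hn, ← hu, ih]
        push_cast
        ring
    funext i
    rw [hτ, sh_pow, hk q i]
    obtain ⟨t, ht⟩ := hqodd
    rw [ht]
    show u i + _ = u i + 1
    push_cast
    linear_combination (t : ZMod 2) * two0
  have hone : (1 : ZMod n → ZMod 2) ≠ 0 := by
    intro h0
    have := congrFun h0 0
    simp at this
  have huE : u ∉ E := by
    rw [hEmem, hτu]
    intro h0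
    apply hone
    have h1 : u + 1 + u = u + u := congrArg (fun y => y + u) h0
    rw [add_right_comm, hV, zero_add] at h1
    exact h1
  have hb := coset_balanced E hcard f hconst hbal u huE
  have hb2 : ∑ x ∈ univ.filter (fun x : ZMod n → ZMod 2 => τ x = x + 1), chi (f x) = 0 := by
    rw [← hb]
    refine Finset.sum_bij' (fun x hx => (⟨u + x, ?_⟩ : E)) (fun e _ => u + (e : ZMod n → ZMod 2))
      ?_ ?_ ?_ ?_ ?_
    · have h1 := (Finset.mem_filter.mp hx).2
      rw [hEmem, map_add, hτu, h1]
      have : u + 1 + (x + 1) = u + x + (1 + 1) := by abel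
      rw [this, hV, add_zero]
    · intro x hx; exact Finset.mem_univ _
    · intro e _
      refine Finset.mem_filter.mpr ⟨Finset.mem_univ _, ?_⟩
      have h1 : τ (e : ZMod n → ZMod 2) = e := e.2
      rw [map_add, hτu, h1]
      abel
    · intro x _
      show u + (u + x) = x
      rw [← add_assoc, hV, zero_add]
    · intro e _
      apply Subtype.ext
      show u + (u + (e : ZMod n → ZMod 2)) = e
      rw [← add_assoc, hV, zero_add]
    · intro x _
      show chi (f x) = chi (f (u + (u + x)))
      rw [← add_assoc, hV, zero_add]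
  obtain ⟨z, hz⟩ := mod_count n h q p a hp hp2 hq hn f hf
  rw [← hτ, hb2] at hz
  have hpow : ∃ k : ℕ, ∑ x ∈ Fset n h, chi (f x) = 2 ^ k ∨ ∑ x ∈ Fset n h, chi (f x) = -2 ^ k := by
    rcases hh with h1 | h1 | h1
    · subst h1
      rcases sum1 n q hn f hf with h2 | h2
      · exact ⟨1, Or.inl (by rw [h2]; norm_num)⟩
      · exact ⟨1, Or.inr (by rw [h2]; norm_num)⟩
    · subst h1
      rcases sum2 n q hn f hf with h2 | h2
      · exact ⟨2, Or.inl (by rw [h2]; norm_num)⟩
      · exact ⟨2, Or.inr (by rw [h2]; norm_num)⟩
    · subst h1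
      exact sum3 n q hn f hf
  obtain ⟨k, hk⟩ := hpow
  have hdvd : (p : ℤ) ∣ 2 ^ k := by
    rcases hk with hk | hk
    · rw [hk] at hz
      exact ⟨-z, by linarith⟩
    · rw [hk] at hz
      exact ⟨z, by linarith⟩
  have hd2 : p ∣ 2 ^ k := by exact_mod_cast hdvd
  have hd3 := (Nat.prime_dvd_prime_iff_eq hp Nat.prime_two).mp (hp.dvd_of_dvd_pow hd2)
  exact hp2 hd3

end bal

section anf

variable {ι : Type} [Fintype ι] [DecidableEq ι]

/-- Invariance of the algebraic normal form. -/
lemma anf_inv (f : (ι → ZMod 2) → ZMod 2) (c : Finset ι → ZMod 2)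
    (hanf : ∀ x, f x = ∑ S : Finset ι, c S * ∏ i ∈ S, x i) (e : ι ≃ ι)
    (hf : ∀ x : ι → ZMod 2, f (x ∘ e) = f x) (A : Finset ι) :
    c (A.map e.toEmbedding) = c A := by
  induction A using Finset.strongInduction with
  | H A ih =>
    have h1 := anf_ind f c hanf A
    have h2 := anf_ind f c hanf (A.map e.toEmbedding)
    have h3 : f (fun i => if i ∈ A.map e.toEmbedding then 1 else 0)
        = f (fun i => if i ∈ A then 1 else 0) := by
      rw [← hf (fun i => if i ∈ A.map e.toEmbedding then 1 else 0)]
      congr 1
      funext i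
      simp
    rw [h3, h1] at h2
    have h4 : ∑ S ∈ (A.map e.toEmbedding).powerset, c S
        = ∑ S ∈ A.powerset, c (S.map e.toEmbedding) := by
      symm
      refine Finset.sum_bij (fun S _ => S.map e.toEmbedding) ?_ ?_ ?_ ?_
      · intro S hS
        rw [Finset.mem_powerset] at *
        exact Finset.map_subset_map.mpr hS
      · intro S _ S' _ hSS
        exact Finset.map_injective _ hSS
      · intro S' hS'
        refine ⟨S'.map e.symm.toEmbedding, ?_, ?_⟩
        · rw [Finset.mem_powerset] at *
          intro i hi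
          obtain ⟨j, hj, rfl⟩ := Finset.mem_map.mp hi
          obtain ⟨k, hk, hkj⟩ := Finset.mem_map.mp (hS' hj)
          have : e.symm.toEmbedding j = k := by rw [← hkj]; simp
          rw [this]
          exact hk
        · rw [Finset.map_map]
          have : e.symm.toEmbedding.trans e.toEmbedding = Function.Embedding.refl ι := by
            ext i; simp
          rw [this, Finset.map_refl]
      · intro S _; rfl
    rw [h4, ← Finset.add_sum_erase A.powerset c (Finset.mem_powerset_self A),
      ← Finset.add_sum_erase A.powerset (fun S => c (S.map e.toEmbedding))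
        (Finset.mem_powerset_self A)] at h2
    have h5 : ∑ S ∈ A.powerset.erase A, c (S.map e.toEmbedding) = ∑ S ∈ A.powerset.erase A, c S := by
      refine Finset.sum_congr rfl fun S hS => ?_
      rw [Finset.mem_erase, Finset.mem_powerset] at hS
      exact ih S (Finset.ssubset_iff_subset_ne.mpr ⟨hS.2, hS.1⟩)
    rw [h5] at h2
    exact (add_right_cancel h2).symm

end anf

end Pool.Agent.Helper76.RSB
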